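import Pool.Agent.H67.HM.Stm2

open Polynomial MeasureTheory Filter Topology

namespace HM

theorem ratio56 (i : ℕ) :
    Tendsto (fun N : ℕ => (N : ℝ) ^ i / (N.descFactorial i : ℝ)) atTop (𝓝 1) := by
  induction i with
  | zero => simp
  | succ i ih =>
    have h1 : Tendsto (fun N : ℕ => (N : ℝ) / ((N : ℝ) + (-(i : ℝ)))) atTop (𝓝 1) :=
      tendsto_natCast_div_add_atTop _
    have h2 := ih.mul h1
    rw [one_mul] at h2
    refine h2.congr' ?_
    filter_upwards [eventually_ge_atTop i] with N hN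
    rw [Nat.descFactorial_succ, Nat.cast_mul, Nat.cast_sub hN, div_mul_div_comm, pow_succ]
    congr 1
    ring

theorem NUM_proved : S_NUM := by
  intro p hp j₀ η hη
  have hp0 : 0 < p := by linarith
  have hc : (1 : ℝ) < (2 : ℝ) ^ (1 / (2 * p)) :=
    Real.one_lt_rpow (by norm_num) (by positivity)
  have hev : ∀ i : ℕ, ∀ᶠ N : ℕ in atTop,
      ((N : ℝ) ^ i / (N.descFactorial i : ℝ)) ^ (1 - 1 / p) ≤ (2 : ℝ) ^ (1 / (2 * p)) := by
    intro i
    have h1 : Tendsto (fun N : ℕ => ((N : ℝ) ^ i / (N.descFactorial i : ℝ)) ^ (1 - 1 / p)) atTop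
        (𝓝 ((1 : ℝ) ^ (1 - 1 / p))) :=
      (ratio56 i).rpow_const (Or.inl one_ne_zero)
    rw [Real.one_rpow] at h1
    exact (h1.eventually (gt_mem_nhds hc)).mono fun N hN => le_of_lt hN
  have hall : ∀ᶠ N : ℕ in atTop, ∀ i ∈ Finset.range (j₀ + 1),
      ((N : ℝ) ^ i / (N.descFactorial i : ℝ)) ^ (1 - 1 / p) ≤ (2 : ℝ) ^ (1 / (2 * p)) :=
    (Filter.eventually_all_finset _).2 fun i _ => hev i
  obtain ⟨N, hN1, hN2⟩ := (hall.and (eventually_ge_atTop (j₀ + 1))).exists
  have hθ : (2 : ℝ) ^ (-(1 / (2 * p))) < 1 :=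
    Real.rpow_lt_one_of_one_lt_of_neg (by norm_num) (by
      have : 0 < 1 / (2 * p) := by positivity
      linarith)
  obtain ⟨n, hn⟩ := exists_pow_lt_of_lt_one hη hθ
  refine ⟨n + 1, N, by omega, by omega, by omega, ?_, ?_⟩
  · have hN0 : (N : ℝ) ≠ 0 := by
      have : N ≠ 0 := by omega
      exact_mod_cast this
    rw [Nat.descFactorial_one, pow_one, div_self hN0, Real.one_rpow, Nat.factorial_one,
      Nat.cast_one, Real.one_rpow, one_mul]
  · intro i hi2 hij
    have h1 := hN1 i (Finset.mem_range.2 (by omega))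
    have h2 : (i.factorial : ℝ) ^ (-(1 / p)) ≤ (2 : ℝ) ^ (-(1 / p)) := by
      apply Real.rpow_le_rpow_of_nonpos (by norm_num)
      · have : 2 ≤ i.factorial := by
          have := Nat.factorial_le hi2
          simpa using this
        exact_mod_cast this
      · have : 0 < 1 / p := by positivity
        linarith
    have h3 : ((N : ℝ) ^ i / (N.descFactorial i : ℝ)) ^ (1 - 1 / p) *
        (i.factorial : ℝ) ^ (-(1 / p)) ≤ (2 : ℝ) ^ (-(1 / (2 * p))) := by
      calc _ ≤ (2 : ℝ) ^ (1 / (2 * p)) * (2 : ℝ) ^ (-(1 / p)) :=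
            mul_le_mul h1 h2 (Real.rpow_nonneg (by positivity) _) (by positivity)
        _ = (2 : ℝ) ^ (-(1 / (2 * p))) := by
            rw [← Real.rpow_add (by norm_num)]
            congr 1
            field_simp
            ring
    have h0 : 0 ≤ ((N : ℝ) ^ i / (N.descFactorial i : ℝ)) ^ (1 - 1 / p) *
        (i.factorial : ℝ) ^ (-(1 / p)) :=
      mul_nonneg (Real.rpow_nonneg (by positivity) _) (Real.rpow_nonneg (by positivity) _)
    calc _ ≤ ((2 : ℝ) ^ (-(1 / (2 * p)))) ^ (n + 1) := pow_le_pow_left₀ h0 h3 _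
      _ ≤ ((2 : ℝ) ^ (-(1 / (2 * p)))) ^ n :=
          pow_le_pow_of_le_one (by positivity) hθ.le (by omega)
      _ ≤ η := hn.le

end HM
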