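import Pool.Agent.H67.HM.Stm2

open Polynomial MeasureTheory Filter Topology

namespace HM

theorem tl_coeff56 (u : ℂ[X]) (k : ℤ) :
    (tl u).coeff k = if 0 ≤ k then u.coeff k.toNat else 0 := by
  induction u using Polynomial.induction_on' with
  | add p q hp hq =>
    rw [map_add, AddMonoidAlgebra.coeff_add, Finsupp.add_apply, hp, hq]
    split_ifs
    · rw [Polynomial.coeff_add]
    · simp
  | monomial n r =>
    unfold tl
    rw [Polynomial.toLaurent_C_mul_T, ← LaurentPolynomial.single_eq_C_mul_T,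
      AddMonoidAlgebra.coeff_single, Finsupp.single_apply, Polynomial.coeff_monomial]
    by_cases h : 0 ≤ k
    · rw [if_pos h]
      by_cases h2 : (n : ℤ) = k
      · rw [if_pos h2, if_pos (by omega)]
      · rw [if_neg h2, if_neg (by omega)]
    · rw [if_neg h, if_neg (by omega)]

theorem WPW_proved (hC : S_CHP) (hS : S_STA) (hN : S_NRM) : S_WPW := by
  intro p hp κ J hκ
  obtain ⟨v, μ, S, hμ, hS1, hv0, hvq, hvp, hv2, hv1, hSJ⟩ := hC p hp κ (2 * J + 2) hκ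
  have hμ0 : 0 < μ := by linarith
  have hS0 : 0 < S := by linarith
  have hp1 : 1 ≤ p := by linarith
  have hq1 : 1 ≤ p / (p - 1) := by
    rw [le_div_iff₀ (by linarith)]
    linarith
  obtain ⟨V, hV⟩ : ∃ V : RR, V = tl v := ⟨_, rfl⟩
  obtain ⟨w, hw⟩ : ∃ w : ℂ[X], w = (Polynomial.C ((μ⁻¹ : ℝ) : ℂ)) * v := ⟨_, rfl⟩
  have htw : tl w = ((μ⁻¹ : ℝ) : ℂ) • V := by
    apply AddMonoidAlgebra.coeff_injective
    ext k
    rw [AddMonoidAlgebra.coeff_smul, Finsupp.smul_apply, hV, tl_coeff56, tl_coeff56, hw]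
    split_ifs
    · rw [Polynomial.coeff_C_mul, smul_eq_mul]
    · simp
  obtain ⟨w', hw'⟩ : ∃ w' : RR, w' = (μ : ℂ) • st V := ⟨_, rfl⟩
  rw [← hV] at hvq hvp hv2 hv1
  have nμ : ‖((μ⁻¹ : ℝ) : ℂ)‖ = μ⁻¹ := by
    rw [Complex.norm_real, Real.norm_eq_abs, abs_of_pos (inv_pos.2 hμ0)]
  have nμ' : ‖(μ : ℂ)‖ = μ := by
    rw [Complex.norm_real, Real.norm_eq_abs, abs_of_pos hμ0]
  have hcc : ((μ⁻¹ : ℝ) : ℂ) * (μ : ℂ) = 1 := by
    rw [← Complex.ofReal_mul, inv_mul_cancel₀ hμ0.ne', Complex.ofReal_one]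
  -- powers of `V * st V`
  have hVn : ∀ n : ℕ, Nn 1 ((V * st V) ^ n) ≤ (S ^ n) ^ 2 := by
    intro n
    induction n with
    | zero =>
      rw [pow_zero, pow_zero, hN.one 1 le_rfl]
      norm_num
    | succ n ih =>
      rw [pow_succ']
      calc Nn 1 (V * st V * (V * st V) ^ n) ≤ Nn 1 (V * st V) * Nn 1 ((V * st V) ^ n) :=
            hN.mul 1 _ _ le_rfl
        _ ≤ S ^ 2 * (S ^ n) ^ 2 := by
            apply mul_le_mul hv1 ih (hN.nonneg _ _) (by positivity)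
        _ = (S ^ (n + 1)) ^ 2 := by ring
  have hpow : ∀ a e : ℕ, Nn 2 (V ^ a * st V ^ e) ≤ S ^ (a + e) := by
    intro a e
    have h1 := hS.two (V ^ a * st V ^ e)
    have h2 : V ^ a * st V ^ e * st (V ^ a * st V ^ e) = (V * st V) ^ (a + e) := by
      rw [hS.mul, hS.pow, hS.pow, hS.st_st]
      ring
    rw [h2] at h1
    have h3 := h1.trans (hVn (a + e))
    exact (pow_le_pow_iff_left₀ (hN.nonneg _ _) (by positivity) two_ne_zero).1 h3
  refine ⟨w, w', μ * S, S / μ, ?_⟩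
  refine
    { nonnegM := by positivity
      nonnegs := by positivity
      w0 := ?_
      w0' := ?_
      nq := ?_
      np := ?_
      inv := ?_
      pow1 := ?_
      pow2 := ?_
      nM := ?_
      ns := ?_
      Ms := ?_ }
  · rw [hw, Polynomial.coeff_C_mul, hv0, mul_zero]
  · intro k hk
    rw [hw', AddMonoidAlgebra.coeff_smul, Finsupp.smul_apply, hS.coeff, hV, tl_coeff56]
    by_cases h : 0 ≤ -k
    · have h0 : k = 0 := by omega
      subst h0
      simp [hv0]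
    · rw [if_neg h]
      simp
  · rw [htw, hN.smul _ _ _ hq1, nμ]
    calc μ⁻¹ * Nn (p / (p - 1)) V ≤ μ⁻¹ * μ :=
          mul_le_mul_of_nonneg_left hvq (inv_nonneg.2 hμ0.le)
      _ = 1 := inv_mul_cancel₀ hμ0.ne'
  · rw [hw', hN.smul _ _ _ hp1, nμ', hS.nrm]
    calc μ * Nn p V ≤ μ * (1 / μ) := mul_le_mul_of_nonneg_left hvp hμ0.le
      _ = 1 := by field_simp
  · rw [htw, hw', smul_mul_smul_comm, hcc, one_smul]
    exact (hN.mono 2 p _ (by norm_num) hp.le).trans hv2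
  · intro n hn1 hnJ
    rw [htw, _root_.smul_pow, hN.smul _ _ _ hp1, norm_pow, nμ]
    have h1 : Nn p (V ^ n) ≤ S ^ n := by
      have h := hpow n 0
      rw [pow_zero, mul_one, add_zero] at h
      exact (hN.mono 2 p _ (by norm_num) hp.le).trans h
    have h2 : S ^ n ≤ S ^ (2 * J + 2) := pow_le_pow_right₀ hS1 (by omega)
    have h3 : μ⁻¹ ^ n ≤ μ⁻¹ := by
      have := pow_le_pow_of_le_one (inv_nonneg.2 hμ0.le) (inv_le_one_of_one_le₀ hμ) hn1
      simpa using this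
    calc μ⁻¹ ^ n * Nn p (V ^ n) ≤ μ⁻¹ * (κ * μ) :=
          mul_le_mul h3 (h1.trans (h2.trans hSJ)) (hN.nonneg _ _) (inv_nonneg.2 hμ0.le)
      _ = κ := by field_simp
  · intro n hn2 hnJ
    have e : tl w ^ n * w' = ((μ⁻¹ : ℝ) : ℂ) ^ (n - 1) • (V ^ n * st V ^ 1) := by
      have hn : n = (n - 1) + 1 := by omega
      rw [htw, hw', _root_.smul_pow, smul_mul_smul_comm, pow_one]
      congr 1
      conv_lhs => rw [hn, pow_succ, mul_assoc, hcc, mul_one]
    rw [e, hN.smul _ _ _ hp1, norm_pow, nμ]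
    have h1 : Nn p (V ^ n * st V ^ 1) ≤ S ^ (n + 1) :=
      (hN.mono 2 p _ (by norm_num) hp.le).trans (hpow n 1)
    have h2 : S ^ (n + 1) ≤ S ^ (2 * J + 2) := pow_le_pow_right₀ hS1 (by omega)
    have h3 : μ⁻¹ ^ (n - 1) ≤ μ⁻¹ := by
      have := pow_le_pow_of_le_one (inv_nonneg.2 hμ0.le) (inv_le_one_of_one_le₀ hμ)
        (show 1 ≤ n - 1 by omega)
      simpa using this
    calc μ⁻¹ ^ (n - 1) * Nn p (V ^ n * st V ^ 1) ≤ μ⁻¹ * (κ * μ) :=
          mul_le_mul h3 (h1.trans (h2.trans hSJ)) (hN.nonneg _ _) (inv_nonneg.2 hμ0.le)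
      _ = κ := by field_simp
  · rw [hw', hN.smul _ _ _ (by norm_num), nμ', hS.nrm]
    have h := hpow 1 0
    rw [pow_zero, mul_one, pow_one, add_zero, pow_one] at h
    exact mul_le_mul_of_nonneg_left h hμ0.le
  · refine hS.sup _ _ (by positivity) ?_
    have e : tl w * st (tl w) = (((μ⁻¹ : ℝ) : ℂ) * ((μ⁻¹ : ℝ) : ℂ)) • (V * st V) := by
      rw [htw, hS.smul, Complex.conj_ofReal, smul_mul_smul_comm]
    rw [e, hN.smul _ _ _ le_rfl, norm_mul, nμ]
    calc μ⁻¹ * μ⁻¹ * Nn 1 (V * st V) ≤ μ⁻¹ * μ⁻¹ * S ^ 2 :=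
          mul_le_mul_of_nonneg_left hv1 (by positivity)
      _ = (S / μ) ^ 2 := by field_simp
  · intro i hi
    have e : (μ * S) ^ i * (S / μ) ^ (i + 1) = μ⁻¹ * S ^ (2 * i + 1) := by
      rw [div_pow, mul_pow, pow_succ μ i]
      field_simp
      ring
    rw [e]
    have h2 : S ^ (2 * i + 1) ≤ S ^ (2 * J + 2) := pow_le_pow_right₀ hS1 (by omega)
    calc μ⁻¹ * S ^ (2 * i + 1) ≤ μ⁻¹ * (κ * μ) :=
          mul_le_mul_of_nonneg_left (h2.trans hSJ) (inv_nonneg.2 hμ0.le)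
      _ = κ := by field_simp

end HM
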